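import Pool.Agent.ZPK.StmtsF

/-! ZPK, row GEH: the genericity conditions in the form needed by block X. -/

set_option autoImplicit false

namespace Pool.Agent.ZPK.H34

open Pool.Agent.ZPT Pool.Agent.ZP3

variable {K : Type} [NormedField K] {n : ℕ}

/-- the value of an integer vector -/
noncomputable def val (lam : Fin n → K) (z : K) : (Option (Fin n) → ℤ) →+ K :=
  AddMonoidHom.mk' (fun C => ∑ i, (C (some i) : K) * lam i + (C none : K) * z) (by
    intro a b
    simp only [Pi.add_apply, Int.cast_add, add_mul, Finset.sum_add_distrib]
    ring)

lemma val_apply (lam : Fin n → K) (z : K) (C : Option (Fin n) → ℤ) :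
    val lam z C = ∑ i, (C (some i) : K) * lam i + (C none : K) * z := rfl

/-- unit vectors -/
def dl (a c : Option (Fin n)) : ℤ := if c = a then 1 else 0

lemma dl_self (a : Option (Fin n)) : dl a a = 1 := if_pos rfl

lemma dl_ne {a c : Option (Fin n)} (h : c ≠ a) : dl a c = 0 := if_neg h

lemma val_dl_some (lam : Fin n → K) (z : K) (i : Fin n) : val lam z (dl (some i)) = lam i := by
  rw [val_apply, Finset.sum_eq_single i]
  · rw [dl_self, dl_ne (Option.some_ne_none i).symm]
    simp
  · intro j _ hj
    rw [dl_ne (fun h => hj (Option.some_injective _ h))]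
    simp
  · intro h
    exact absurd (Finset.mem_univ i) h

lemma val_dl_none (lam : Fin n → K) (z : K) : val lam z (dl none) = z := by
  rw [val_apply, Finset.sum_eq_zero]
  · rw [dl_self]
    simp
  · intro j _
    rw [dl_ne (Option.some_ne_none j)]
    simp

lemma unit_norm {S : Set (Fin n)} {lam : Fin n → K} {z : K} (hF : FIo S lam z)
    (C D : Option (Fin n) → ℤ) (hb : ∀ a, |C a| ≤ 2 ∧ |D a| ≤ 2)
    (hs : ∀ k, k ∉ S → C (some k) = 0 ∧ D (some k) = 0)
    (hne : ∃ a b, C a * D b ≠ C b * D a) (m : ℤ) :
    ‖val lam z C - (m : K) * val lam z D‖ = 1 := by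
  have h1 := hF (fun i => C (some i)) (fun i => D (some i)) (C none) (D none) (hb none).1
    (hb none).2 (fun i => ⟨(hb (some i)).1, (hb (some i)).2, hs i⟩) (by
      obtain ⟨a, b, h⟩ := hne
      rcases a with _ | i
      · rcases b with _ | j
        · exact absurd rfl h
        · exact Or.inr ⟨j, fun h2 => h h2.symm⟩
      · rcases b with _ | j
        · exact Or.inr ⟨i, h⟩
        · exact Or.inl ⟨i, j, h⟩) m
  have h2 : val lam z C - (m : K) * val lam z D = val lam z (C - m • D) := by
    rw [map_sub, map_zsmul, zsmul_eq_mul]
  rw [h2, val_apply]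
  have h3 : (∑ i, (((C - m • D) (some i) : ℤ) : K) * lam i + (((C - m • D) none : ℤ) : K) * z)
      = (∑ i, ((C (some i) - m * D (some i) : ℤ) : K) * lam i) +
        ((C none - m * D none : ℤ) : K) * z := rfl
  rw [h3]
  exact h1

lemma dl_bound (a c : Option (Fin n)) : 0 ≤ dl a c ∧ dl a c ≤ 1 := by
  unfold dl
  split_ifs <;> norm_num

lemma dl_disj {a b : Option (Fin n)} (h : a ≠ b) (c : Option (Fin n)) :
    dl a c = 0 ∨ dl b c = 0 := by
  by_cases hc : c = a
  · exact Or.inr (dl_ne (fun h2 => h (hc.symm.trans h2)))
  · exact Or.inl (dl_ne hc)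

/-- the vector of a state -/
def B : Option (Option (Fin n)) → Option (Fin n) → ℤ
  | none => 0
  | some a => dl a

lemma gtr_key {S : Set (Fin n)} {lam : Fin n → K} {z : K} (hF : FIo S lam z)
    (s₁ s₂ s₄ : Option (Option (Fin n))) (h₁ : ∀ k, s₁ = some (some k) → k ∈ S)
    (h₂ : ∀ k, s₂ = some (some k) → k ∈ S) (h₄ : ∀ k, s₄ = some (some k) → k ∈ S)
    (hne : s₁ ≠ s₂) : Gtr (val lam z (B s₁)) (val lam z (B s₂)) (val lam z (B s₄)) := by
  have hsup : ∀ a : Option (Fin n), (∀ k, some a = some (some k) → k ∈ S) → ∀ k, k ∉ S →
      dl a (some k) = 0 := by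
    intro a ha k hk
    refine dl_ne (fun h => hk (ha k ?_))
    rw [h]
  have hzero : val lam z (B none) = 0 := map_zero (val lam z)
  rcases s₄ with _ | w
  · -- fourth is zero
    refine Or.inr (Or.inr ⟨hzero, ?_⟩)
    rcases s₁ with _ | a
    · exact Or.inl hzero
    · rcases s₂ with _ | b
      · exact Or.inr (Or.inl hzero)
      · refine Or.inr (Or.inr fun m => ?_)
        have hab : a ≠ b := fun h => hne (by rw [h])
        rw [← map_sub]
        refine unit_norm hF (B (some b)) (B (some a) - B (some b)) (fun c => ?_) (fun k hk => ?_)
          ⟨a, b, ?_⟩ m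
        · show |dl b c| ≤ 2 ∧ |dl a c - dl b c| ≤ 2
          have h1 := dl_bound a c
          have h2 := dl_bound b c
          rw [abs_le, abs_le]
          constructor <;> constructor <;> omega
        · show dl b (some k) = 0 ∧ dl a (some k) - dl b (some k) = 0
          rw [hsup b h₂ k hk, hsup a h₁ k hk]
          exact ⟨rfl, rfl⟩
        · show dl b a * (dl a b - dl b b) ≠ dl b b * (dl a a - dl b a)
          rw [dl_self, dl_self, dl_ne hab]
          norm_num
  · rcases s₁ with _ | a
    · rcases s₂ with _ | b
      · exact absurd rfl hne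
      · by_cases hwb : w = b
        · refine Or.inl ⟨Or.inl hzero, Or.inr ?_⟩
          rw [hwb]
        · refine Or.inr (Or.inl fun m => ?_)
          rw [← map_sub (val lam z) (B none) (B (some b))]
          have h2m : val lam z (B (some b)) - 2 * val lam z (B (some w))
              = val lam z (B (some b) - (2 : ℤ) • B (some w)) := by
            rw [map_sub, map_zsmul, zsmul_eq_mul]
            norm_num
          rw [h2m]
          constructor
          · refine unit_norm hF (B (some w)) (B none - B (some b)) (fun c => ?_)
              (fun k hk => ?_) ⟨w, b, ?_⟩ m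
            · show |dl w c| ≤ 2 ∧ |0 - dl b c| ≤ 2
              have h1 := dl_bound w c
              have h2 := dl_bound b c
              rw [abs_le, abs_le]
              constructor <;> constructor <;> omega
            · show dl w (some k) = 0 ∧ 0 - dl b (some k) = 0
              rw [hsup b h₂ k hk, hsup w h₄ k hk]
              exact ⟨rfl, rfl⟩
            · show dl w w * (0 - dl b b) ≠ dl w b * (0 - dl b w)
              rw [dl_self, dl_self, dl_ne (fun h => hwb h.symm)]
              norm_num
          · refine unit_norm hF (B (some b) - (2 : ℤ) • B (some w)) (B none - B (some b))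
              (fun c => ?_) (fun k hk => ?_) ⟨w, b, ?_⟩ m
            · show |dl b c - 2 * dl w c| ≤ 2 ∧ |0 - dl b c| ≤ 2
              have h1 := dl_bound w c
              have h2 := dl_bound b c
              rw [abs_le, abs_le]
              constructor <;> constructor <;> omega
            · show dl b (some k) - 2 * dl w (some k) = 0 ∧ 0 - dl b (some k) = 0
              rw [hsup b h₂ k hk, hsup w h₄ k hk]
              exact ⟨rfl, rfl⟩
            · show (dl b w - 2 * dl w w) * (0 - dl b b) ≠ (dl b b - 2 * dl w b) * (0 - dl b w)
              rw [dl_self, dl_self, dl_ne (fun h => hwb h.symm), dl_ne hwb]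
              norm_num
    · rcases s₂ with _ | b
      · by_cases hwa : w = a
        · refine Or.inl ⟨Or.inr hzero, Or.inl ?_⟩
          rw [hwa]
        · refine Or.inr (Or.inl fun m => ?_)
          rw [← map_sub (val lam z) (B (some a)) (B none)]
          have h2m : val lam z (B none) - 2 * val lam z (B (some w))
              = val lam z (B none - (2 : ℤ) • B (some w)) := by
            rw [map_sub, map_zsmul, zsmul_eq_mul]
            norm_num
          rw [h2m]
          constructor
          · refine unit_norm hF (B (some w)) (B (some a) - B none) (fun c => ?_)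
              (fun k hk => ?_) ⟨w, a, ?_⟩ m
            · show |dl w c| ≤ 2 ∧ |dl a c - 0| ≤ 2
              have h1 := dl_bound w c
              have h2 := dl_bound a c
              rw [abs_le, abs_le]
              constructor <;> constructor <;> omega
            · show dl w (some k) = 0 ∧ dl a (some k) - 0 = 0
              rw [hsup a h₁ k hk, hsup w h₄ k hk]
              exact ⟨rfl, rfl⟩
            · show dl w w * (dl a a - 0) ≠ dl w a * (dl a w - 0)
              rw [dl_self, dl_self, dl_ne (fun h => hwa h.symm)]
              norm_num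
          · refine unit_norm hF (B none - (2 : ℤ) • B (some w)) (B (some a) - B none)
              (fun c => ?_) (fun k hk => ?_) ⟨w, a, ?_⟩ m
            · show |0 - 2 * dl w c| ≤ 2 ∧ |dl a c - 0| ≤ 2
              have h1 := dl_bound w c
              have h2 := dl_bound a c
              rw [abs_le, abs_le]
              constructor <;> constructor <;> omega
            · show 0 - 2 * dl w (some k) = 0 ∧ dl a (some k) - 0 = 0
              rw [hsup a h₁ k hk, hsup w h₄ k hk]
              exact ⟨rfl, rfl⟩
            · show (0 - 2 * dl w w) * (dl a a - 0) ≠ (0 - 2 * dl w a) * (dl a w - 0)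
              rw [dl_self, dl_self, dl_ne (fun h => hwa h.symm)]
              norm_num
      · have hab : a ≠ b := fun h => hne (by rw [h])
        refine Or.inr (Or.inl fun m => ?_)
        rw [← map_sub (val lam z) (B (some a)) (B (some b))]
        have h2m : val lam z (B (some b)) - 2 * val lam z (B (some w))
            = val lam z (B (some b) - (2 : ℤ) • B (some w)) := by
          rw [map_sub, map_zsmul, zsmul_eq_mul]
          norm_num
        rw [h2m]
        constructor
        · refine unit_norm hF (B (some w)) (B (some a) - B (some b)) (fun c => ?_)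
            (fun k hk => ?_) ?_ m
          · show |dl w c| ≤ 2 ∧ |dl a c - dl b c| ≤ 2
            have h1 := dl_bound w c
            have h2 := dl_bound a c
            have h3 := dl_bound b c
            rw [abs_le, abs_le]
            constructor <;> constructor <;> omega
          · show dl w (some k) = 0 ∧ dl a (some k) - dl b (some k) = 0
            rw [hsup a h₁ k hk, hsup b h₂ k hk, hsup w h₄ k hk]
            exact ⟨rfl, rfl⟩
          · by_cases hwa : w = a
            · refine ⟨a, b, ?_⟩
              show dl w a * (dl a b - dl b b) ≠ dl w b * (dl a a - dl b a)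
              rw [hwa, dl_self, dl_self, dl_ne hab.symm]
              norm_num
            · refine ⟨w, a, ?_⟩
              show dl w w * (dl a a - dl b a) ≠ dl w a * (dl a w - dl b w)
              rw [dl_self, dl_self, dl_ne hab, dl_ne (fun h => hwa h.symm)]
              norm_num
        · refine unit_norm hF (B (some b) - (2 : ℤ) • B (some w)) (B (some a) - B (some b))
            (fun c => ?_) (fun k hk => ?_) ?_ m
          · show |dl b c - 2 * dl w c| ≤ 2 ∧ |dl a c - dl b c| ≤ 2
            have h1 := dl_bound w c
            have h2 := dl_bound a c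
            have h3 := dl_bound b c
            rw [abs_le, abs_le]
            constructor <;> constructor <;> omega
          · show dl b (some k) - 2 * dl w (some k) = 0 ∧ dl a (some k) - dl b (some k) = 0
            rw [hsup a h₁ k hk, hsup b h₂ k hk, hsup w h₄ k hk]
            exact ⟨rfl, rfl⟩
          · by_cases hwa : w = a
            · refine ⟨a, b, ?_⟩
              show (dl b a - 2 * dl w a) * (dl a b - dl b b) ≠
                (dl b b - 2 * dl w b) * (dl a a - dl b a)
              rw [hwa, dl_self, dl_self, dl_ne hab, dl_ne hab.symm]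
              norm_num
            · by_cases hwb : w = b
              · refine ⟨b, a, ?_⟩
                show (dl b b - 2 * dl w b) * (dl a a - dl b a) ≠
                  (dl b a - 2 * dl w a) * (dl a b - dl b b)
                rw [hwb, dl_self, dl_self, dl_ne hab, dl_ne hab.symm]
                norm_num
              · refine ⟨w, a, ?_⟩
                show (dl b w - 2 * dl w w) * (dl a a - dl b a) ≠
                  (dl b a - 2 * dl w a) * (dl a w - dl b w)
                rw [dl_self, dl_self, dl_ne hab, dl_ne (fun h => hwa h.symm), dl_ne hwa,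
                  dl_ne hwb]
                norm_num

theorem geh : GehStmt := by
  intro p K _ Log u₁ n e A g hg hA G b hb
  constructor
  · intro x y hxy hx hy
    have hgx : g x ≠ 0 := norm_ne_zero_iff.1 (by rw [hg x]; exact one_ne_zero)
    have hgy : g y ≠ 0 := norm_ne_zero_iff.1 (by rw [hg y]; exact one_ne_zero)
    have h1 := G.zero (e b) hb (fun i => if i = x then 1 else 0) (fun i => if i = y then 1 else 0)
      (fun i => by
        refine ⟨?_, ?_, fun hi => ?_⟩
        · show |(if i = x then (1 : ℤ) else 0)| ≤ 2
          split_ifs <;> norm_num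
        · show |(if i = y then (1 : ℤ) else 0)| ≤ 2
          split_ifs <;> norm_num
        · have h2 : i ≠ x := fun h => hi (by rw [h]; exact hx)
          have h3 : i ≠ y := fun h => hi (by rw [h]; exact hy)
          exact ⟨if_neg h2, if_neg h3⟩)
      ⟨x, y, by
        show (if x = x then (1 : ℤ) else 0) * (if y = y then (1 : ℤ) else 0) ≠
          (if y = x then (1 : ℤ) else 0) * (if x = y then (1 : ℤ) else 0)
        rw [if_pos rfl, if_pos rfl, if_neg hxy]
        norm_num⟩ 1
    have h2 : (∑ i, (((if i = x then (1 : ℤ) else 0) - 1 * (if i = y then (1 : ℤ) else 0) : ℤ) : K) *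
        (A i 0 / g i)) = A x 0 / g x - A y 0 / g y := by
      have h3 : ∀ i, (((if i = x then (1 : ℤ) else 0) - 1 * (if i = y then (1 : ℤ) else 0) : ℤ) : K) *
          (A i 0 / g i) = (if i = x then A i 0 / g i else 0) - (if i = y then A i 0 / g i else 0) := by
        intro i
        by_cases h4 : i = x
        · have h5 : i ≠ y := fun h => hxy (h4.symm.trans h)
          simp [h4, hxy]
        · by_cases h5 : i = y
          · simp [h5, hxy.symm]
          · simp [h4, h5]
      rw [Finset.sum_congr rfl (fun i _ => h3 i), Finset.sum_sub_distrib, Finset.sum_ite_eq',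
        Finset.sum_ite_eq', if_pos (Finset.mem_univ x), if_pos (Finset.mem_univ y)]
    rw [h2] at h1
    have h3 : g x * A y 0 - g y * A x 0 = -(g x * g y * (A x 0 / g x - A y 0 / g y)) := by
      field_simp
      ring
    rw [h3, norm_neg, norm_mul, norm_mul, hg x, hg y, h1]
    norm_num
  · intro v x y u hv hx hy hu hne
    have hev : 1 ≤ e v := by omega
    have hF := G.zer v hev
    set lam : Fin n → K := fun i => A i 0 * A v 0 / (g i * A v 0 - A i 0 * g v) with hlam
    set z : K := -(A v 0 / g v) with hz
    have hst : ∀ i : Fin n, i ≠ v → ∃ s : Option (Option (Fin n)),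
        (∀ k, s = some (some k) → k ∈ {i | e i = e v ∧ i ≠ v}) ∧
          Lx e A g v i = val lam z (B s) := by
      intro i hi
      by_cases h1 : e i < e v
      · refine ⟨none, fun k hk => absurd hk (by simp), ?_⟩
        rw [Lx, if_pos h1]
        exact (map_zero (val lam z)).symm
      · by_cases h2 : e i = e v
        · refine ⟨some (some i), fun k hk => ?_, ?_⟩
          · have h3 : i = k := by simpa using hk
            rw [← h3]
            exact ⟨h2, hi⟩
          · rw [Lx, if_neg h1, if_pos h2]
            exact (val_dl_some lam z i).symm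
        · refine ⟨some none, fun k hk => absurd hk (by simp), ?_⟩
          rw [Lx, if_neg h1, if_neg h2]
          exact (val_dl_none lam z).symm
    obtain ⟨s₁, hs₁, hl₁⟩ := hst x hx
    obtain ⟨s₂, hs₂, hl₂⟩ := hst y hy
    obtain ⟨s₄, hs₄, hl₄⟩ := hst u hu
    rw [hl₁, hl₂] at hne
    rw [hl₁, hl₂, hl₄]
    exact gtr_key hF s₁ s₂ s₄ hs₁ hs₂ hs₄ (fun h => hne (by rw [h]))

end Pool.Agent.ZPK.H34
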